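import Pool.Agent.X221.Koszul.Comb
import Pool.Agent.X221.Koszul.Roots

/-!
# A Koszul matroid Chow ring whose Hilbert series has a non-real zero

For a loopless matroid `M` and a building set `𝒢` on its lattice of flats we define nested sets,
the Chow ring `D(M, 𝒢)`, its degree pieces and the Koszul property (existence of a linear free
resolution of the residue field).  For the Boolean matroid on seven elements and a building set
with eighteen members the Chow ring is Koszul and its Hilbert series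
`1 + 11x + 39x² + 59x³ + 39x⁴ + 11x⁵ + x⁶` has a non-real zero.
-/

namespace Pool.Agent.Results.MP_0b1547_co.KoszulNonReal

open MvPolynomial

variable {α : Type}

/-- Nonempty flats. -/
def IsNonemptyFlat (M : Matroid α) (F : Set α) : Prop := M.IsFlat F ∧ F.Nonempty

/-- The interval `[∅, F]` in the lattice of flats (of a loopless matroid). -/
abbrev Below (M : Matroid α) (F : Set α) : Type := {H : Set α // M.IsFlat H ∧ H ⊆ F}

/-- The maximal elements of `𝒢 ∩ [∅, F]`. -/
abbrev MaxMembers (𝒢 : Finset (Set α)) (F : Set α) : Type :=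
  {G : Set α // Maximal (fun G => G ∈ 𝒢 ∧ G ⊆ F) G}

/-- Building sets: `𝒢` consists of nonempty flats and, for every nonempty flat `F` with maximal
members `G₁, ..., G_k` of `𝒢` below `F`, the map `∏ [∅, G_j] → [∅, F]` sending `(H_j)` to the join
of the `H_j` is an isomorphism of posets. -/
structure IsBuildingSet (M : Matroid α) (𝒢 : Finset (Set α)) : Prop where
  flat : ∀ G ∈ 𝒢, IsNonemptyFlat M G
  iso : ∀ F, IsNonemptyFlat M F →
    ∃ e : ((G : MaxMembers 𝒢 F) → Below M G.1) ≃o Below M F,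
      ∀ h, (e h : Set α) = M.closure (⋃ G, (h G : Set α))

/-- Nested sets: the join of any `t ≥ 2` pairwise incomparable elements is not in `𝒢`. -/
def IsNested (M : Matroid α) (𝒢 : Finset (Set α)) (S : Finset {G // G ∈ 𝒢}) : Prop :=
  ∀ A ⊆ S, 2 ≤ A.card → (∀ G ∈ A, ∀ H ∈ A, G ≠ H → ¬ G.1 ⊆ H.1) →
    M.closure (⋃ G ∈ A, G.1) ∉ 𝒢

/-- Atoms of the lattice of flats. -/
def IsAtomFlat (M : Matroid α) (a : Set α) : Prop := Minimal (IsNonemptyFlat M) a

open Classical in
/-- The defining ideal of the Chow ring: products over non-nested sets and the linear forms of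
the atoms. -/
noncomputable def chowIdeal (M : Matroid α) (𝒢 : Finset (Set α)) :
    Ideal (MvPolynomial {G // G ∈ 𝒢} ℚ) :=
  Ideal.span ({f | ∃ S : Finset {G // G ∈ 𝒢}, ¬ IsNested M 𝒢 S ∧ f = ∏ G ∈ S, X G} ∪
    {f | ∃ a, IsAtomFlat M a ∧ f = ∑ G : {G // G ∈ 𝒢}, if a ⊆ G.1 then X G else 0})

/-- The Chow ring `D(M, 𝒢)`. -/
abbrev ChowRing (M : Matroid α) (𝒢 : Finset (Set α)) : Type :=
  MvPolynomial {G // G ∈ 𝒢} ℚ ⧸ chowIdeal M 𝒢

/-- The graded piece `Dⁱ(M, 𝒢)`: classes of homogeneous polynomials of degree `i`. -/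
noncomputable def chowPiece (M : Matroid α) (𝒢 : Finset (Set α)) (i : ℕ) :
    Submodule ℚ (ChowRing M 𝒢) :=
  (homogeneousSubmodule {G // G ∈ 𝒢} ℚ i).map (Ideal.Quotient.mkₐ ℚ (chowIdeal M 𝒢)).toLinearMap

/-- The ideal generated by the variables. -/
noncomputable def irrelevant (M : Matroid α) (𝒢 : Finset (Set α)) : Ideal (ChowRing M 𝒢) :=
  Ideal.span (Set.range fun G : {G // G ∈ 𝒢} => Ideal.Quotient.mk (chowIdeal M 𝒢) (X G))

/-- The Chow ring `D` is Koszul: there is an infinite exact sequence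
`... → D^{b 2} → D^{b 1} → D^{b 0} = D → ℚ → 0` in which every map `D^{b (i+1)} → D^{b i}` is
given by a matrix whose entries have degree one. -/
def IsKoszul (M : Matroid α) (𝒢 : Finset (Set α)) : Prop :=
  ∃ (b : ℕ → ℕ) (d : (i : ℕ) → Matrix (Fin (b i)) (Fin (b (i + 1))) (ChowRing M 𝒢)),
    b 0 = 1 ∧ (∀ i r c, d i r c ∈ chowPiece M 𝒢 1) ∧
    (∀ v : Fin (b 0) → ChowRing M 𝒢,
      v ∈ LinearMap.range (d 0).mulVecLin ↔ ∀ j, v j ∈ irrelevant M 𝒢) ∧
    ∀ i, LinearMap.range (d (i + 1)).mulVecLin = LinearMap.ker (d i).mulVecLin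

/-! ### The Boolean matroid -/

/-- The Boolean matroid on seven elements. -/
abbrev B7 : Matroid (Fin 7) := Matroid.freeOn Set.univ

lemma B7_closure (X : Set (Fin 7)) : B7.closure X = X := by
  rw [Matroid.freeOn_closure_eq, Set.inter_univ]

lemma B7_flat (X : Set (Fin 7)) : B7.IsFlat X :=
  Matroid.isFlat_iff_closure_eq.2 (B7_closure X)

lemma B7_loopless : B7.Loopless := by
  rw [Matroid.loopless_iff_forall_isNonloop]
  intro e he
  exact Matroid.freeOn_isNonloop_iff.2 he

theorem building_of (𝒢 : Finset (Set (Fin 7))) (h1 : ∀ G ∈ 𝒢, G.Nonempty)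
    (h2 : ∀ i, {i} ∈ 𝒢) (h3 : ∀ G ∈ 𝒢, ∀ H ∈ 𝒢, (G ∩ H).Nonempty → G ∪ H ∈ 𝒢) :
    IsBuildingSet B7 𝒢 := by
  refine ⟨fun G hG => ⟨B7_flat G, h1 G hG⟩, fun F _ => ?_⟩
  have hdisj : ∀ G H : MaxMembers 𝒢 F, ∀ x, x ∈ G.1 → x ∈ H.1 → G = H := by
    intro G H x hG hH
    have hu : G.1 ∪ H.1 ∈ 𝒢 := h3 _ G.2.1.1 _ H.2.1.1 ⟨x, hG, hH⟩
    have hs : G.1 ∪ H.1 ⊆ F := Set.union_subset G.2.1.2 H.2.1.2
    have e1 : G.1 ∪ H.1 ⊆ G.1 := G.2.2 ⟨hu, hs⟩ Set.subset_union_left
    have e2 : G.1 ∪ H.1 ⊆ H.1 := H.2.2 ⟨hu, hs⟩ Set.subset_union_right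
    apply Subtype.ext
    exact Set.Subset.antisymm (Set.subset_union_left.trans e2) (Set.subset_union_right.trans e1)
  have hcov : ∀ x ∈ F, ∃ G : MaxMembers 𝒢 F, x ∈ G.1 := by
    intro x hx
    have hfin : {G : Set (Fin 7) | G ∈ 𝒢 ∧ G ⊆ F}.Finite := Set.toFinite _
    obtain ⟨m, hm, hmax⟩ := hfin.exists_le_maximal
      (show ({x} : Set (Fin 7)) ∈ {G : Set (Fin 7) | G ∈ 𝒢 ∧ G ⊆ F} from
        ⟨h2 x, Set.singleton_subset_iff.2 hx⟩)
    exact ⟨⟨m, hmax⟩, hm rfl⟩
  let e : ((G : MaxMembers 𝒢 F) → Below B7 G.1) ≃o Below B7 F :=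
    { toFun := fun h => ⟨⋃ G, (h G : Set (Fin 7)), B7_flat _,
        Set.iUnion_subset fun G => (h G).2.2.trans G.2.1.2⟩
      invFun := fun H G => ⟨H.1 ∩ G.1, B7_flat _, Set.inter_subset_right⟩
      left_inv := by
        intro h
        funext G
        apply Subtype.ext
        ext x
        simp only [Set.mem_inter_iff, Set.mem_iUnion]
        constructor
        · rintro ⟨⟨G', hx⟩, hG⟩
          have := hdisj G' G x ((h G').2.2 hx) hG
          rw [← this]; exact hx
        · intro hx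
          exact ⟨⟨G, hx⟩, (h G).2.2 hx⟩
      right_inv := by
        intro H
        apply Subtype.ext
        ext x
        simp only [Set.mem_inter_iff, Set.mem_iUnion]
        constructor
        · rintro ⟨G, hx, _⟩; exact hx
        · intro hx
          obtain ⟨G, hG⟩ := hcov x (H.2.2 hx)
          exact ⟨G, hx, hG⟩
      map_rel_iff' := by
        intro h h'
        constructor
        · intro hle G x hx
          have h4 : x ∈ ⋃ G, (h' G : Set (Fin 7)) := hle (Set.mem_iUnion.2 ⟨G, hx⟩)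
          obtain ⟨G', hG'⟩ := Set.mem_iUnion.1 h4
          have := hdisj G' G x ((h' G').2.2 hG') ((h G).2.2 hx)
          rw [this] at hG'
          exact hG'
        · intro hle
          exact Set.iUnion_mono fun G => hle G }
  exact ⟨e, fun h => (B7_closure _).symm⟩

lemma isAtomFlat_iff (a : Set (Fin 7)) : IsAtomFlat B7 a ↔ ∃ i, a = {i} := by
  constructor
  · intro h
    obtain ⟨i, hi⟩ := h.1.2
    refine ⟨i, Set.Subset.antisymm ?_ (Set.singleton_subset_iff.2 hi)⟩
    exact h.2 ⟨B7_flat _, Set.singleton_nonempty i⟩ (Set.singleton_subset_iff.2 hi)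
  · rintro ⟨i, rfl⟩
    refine ⟨⟨B7_flat _, Set.singleton_nonempty i⟩, ?_⟩
    rintro F ⟨_, x, hx⟩ hF
    have : x = i := hF hx
    rw [← this]
    exact Set.singleton_subset_iff.2 hx

open Pool.Agent.X221.Koszul Pool.Agent.X221.Koszul.Cert

theorem chowIdeal_eq : chowIdeal B7 bset = relI non (th eq18) := by
  classical
  have hlin : ∀ i, (∑ G : {G // G ∈ bset}, if ({i} : Set (Fin 7)) ⊆ G.1 then
      (X G : MvPolynomial {G // G ∈ bset} ℚ) else 0) = ∑ v, C (th eq18 i v) * X v := by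
    intro i
    refine Finset.sum_congr rfl fun G _ => ?_
    rw [th_eq]
    split_ifs
    · rw [map_one, one_mul]
    · rw [map_zero, zero_mul]
  apply le_antisymm
  · refine Ideal.span_le.2 ?_
    rintro _ (⟨S, hS, rfl⟩ | ⟨a, ha, rfl⟩)
    · rw [IsNested] at hS
      push Not at hS
      obtain ⟨A, hA, hc, hanti, hU⟩ := hS
      rw [B7_closure] at hU
      obtain ⟨u, hu, v, hv, huv, h⟩ := flag A hc hanti hU
      have h1 : X u * X v ∈ relI non (th eq18) := non_mem h
      have h2 : ∏ G ∈ S, (X G : MvPolynomial {G // G ∈ bset} ℚ) =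
          (∏ G ∈ (S.erase u).erase v, X G) * (X u * X v) := by
        rw [← Finset.prod_erase_mul S _ (hA hu), ← Finset.prod_erase_mul (S.erase u) _
          (Finset.mem_erase.2 ⟨huv.symm, hA hv⟩)]
        ring
      rw [h2]
      exact Ideal.mul_mem_left _ _ h1
    · obtain ⟨i, rfl⟩ := (isAtomFlat_iff a).1 ha
      rw [SetLike.mem_coe]
      convert lin_mem (non := non) (θ := th eq18) i using 1
      rw [← hlin i]
  · refine Ideal.span_le.2 ?_
    rintro _ (⟨u, v, h, rfl⟩ | ⟨i, rfl⟩)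
    · have huv : u ≠ v := by rintro rfl; exact h.1 le_rfl
      refine Ideal.subset_span (Or.inl ⟨{u, v}, ?_, by rw [Finset.prod_pair huv]⟩)
      intro hn
      refine hn _ le_rfl (by rw [Finset.card_pair huv]) ?_ ?_
      · intro G hG H hH hGH
        simp only [Finset.mem_insert, Finset.mem_singleton] at hG hH
        rcases hG with rfl | rfl <;> rcases hH with rfl | rfl
        · exact absurd rfl hGH
        · exact h.1
        · exact h.2.1
        · exact absurd rfl hGH
      · rw [B7_closure]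
        have : (⋃ G ∈ ({u, v} : Finset {G // G ∈ bset}), G.1) = u.1 ∪ v.1 := by
          ext x; simp
        rw [this]
        exact h.2.2
    · refine Ideal.subset_span (Or.inr ⟨{i}, (isAtomFlat_iff _).2 ⟨i, rfl⟩, ?_⟩)
      rw [← hlin i]

/-- There are a loopless matroid and a building set whose Chow ring is Koszul and whose Hilbert
series has a non-real zero. -/
theorem result : ∃ (M : Matroid (Fin 7)) (𝒢 : Finset (Set (Fin 7))),
    M.Loopless ∧ IsBuildingSet M 𝒢 ∧ IsKoszul M 𝒢 ∧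
    ∃ H : Polynomial ℂ, (∀ i, H.coeff i = (Module.finrank ℚ (chowPiece M 𝒢 i) : ℂ)) ∧
      H = 1 + 11 * Polynomial.X + 39 * Polynomial.X ^ 2 + 59 * Polynomial.X ^ 3 +
        39 * Polynomial.X ^ 4 + 11 * Polynomial.X ^ 5 + Polynomial.X ^ 6 ∧
      ∃ z : ℂ, z.im ≠ 0 ∧ H.IsRoot z := by
  refine ⟨B7, bset, B7_loopless, building_of bset (fun G hG => bset_nonempty hG) bset_single
    (fun G hG H hH h => bset_union hG hH h), ?_, hpol, ?_, rfl, exists_nonreal_root⟩
  · have h : Pool.Agent.X221.Koszul.IsKoszul (chowIdeal B7 bset) := by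
      rw [chowIdeal_eq]; exact koszul eq18 non_iff
    exact h
  · intro i
    rw [hpol_coeff]
    have h : Module.finrank ℚ (piece (chowIdeal B7 bset) i) =
        [1, 11, 39, 59, 39, 11, 1].getD i 0 := by
      rw [chowIdeal_eq]; exact hilbert eq18 non_iff i
    rw [← h]
    rfl

end Pool.Agent.Results.MP_0b1547_co.KoszulNonReal
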